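import Pool.Agent.T9h7.RE.Spec4

/-!
Piece (CORC): tight refutations contain two wide clauses at the same time.
-/

set_option autoImplicit false
open Filter

namespace Pool.Agent.T9h12.RE

open Pool.Agent.T9h7.RD Pool.Agent.T9h7.RE

theorem log_bound {K n : ℕ} (hn : 16 * (K : ℝ) ≤ Real.log n) (hn2 : 2 ≤ n) :
    (K : ℝ) * (Real.log ((n : ℝ) + 2)) ^ 3 ≤ (Real.log n) ^ 4 := by
  have h2 : (2 : ℝ) ≤ (n : ℝ) := by exact_mod_cast hn2
  have hl0 : 0 ≤ Real.log (n : ℝ) := Real.log_nonneg (by linarith)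
  have h1 : Real.log ((n : ℝ) + 2) ≤ 2 * Real.log n := by
    have : (2 : ℝ) * Real.log n = Real.log ((n : ℝ) ^ 2) := by
      rw [Real.log_pow]; norm_num
    rw [this]
    apply Real.log_le_log (by linarith)
    nlinarith
  have h0 : 0 ≤ Real.log ((n : ℝ) + 2) := Real.log_nonneg (by linarith)
  have hK : (0 : ℝ) ≤ (K : ℝ) := Nat.cast_nonneg K
  calc (K : ℝ) * (Real.log ((n : ℝ) + 2)) ^ 3 ≤ (K : ℝ) * (2 * Real.log n) ^ 3 :=
        mul_le_mul_of_nonneg_left (pow_le_pow_left₀ h0 h1 3) (Nat.cast_nonneg K)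
    _ = (8 * (K : ℝ)) * (Real.log n) ^ 3 := by ring
    _ ≤ Real.log n * (Real.log n) ^ 3 := mul_le_mul_of_nonneg_right (by linarith) (by positivity)
    _ = (Real.log n) ^ 4 := by ring

theorem log_two_mul {n : ℕ} (hn2 : 2 ≤ n) :
    Real.log ((n : ℝ) + 2) ≤ 2 * Real.log n := by
  have h2 : (2 : ℝ) ≤ (n : ℝ) := by exact_mod_cast hn2
  have : (2 : ℝ) * Real.log n = Real.log ((n : ℝ) ^ 2) := by
    rw [Real.log_pow]; norm_num
  rw [this]
  apply Real.log_le_log (by linarith)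
  nlinarith

/-- from s ≤ sqrt D (log n)^c and the main bound -/
theorem step {K n D s w c : ℕ} (hs : 0 < s)
    (hmain : (D : ℝ) ≤ (K : ℝ) * (s : ℝ) * (w : ℝ) * (Real.log ((n : ℝ) + 2)) ^ 3)
    (hn : 16 * (K : ℝ) ≤ Real.log n) (hn2 : 2 ≤ n)
    (hsD : (s : ℝ) ≤ Real.sqrt D * (Real.log n) ^ c) :
    (s : ℝ) ≤ (w : ℝ) * (Real.log n) ^ (2 * c + 4) := by
  have h2 : (2 : ℝ) ≤ (n : ℝ) := by exact_mod_cast hn2
  have hl0 : 0 ≤ Real.log (n : ℝ) := Real.log_nonneg (by linarith)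
  have hs0 : (0 : ℝ) < (s : ℝ) := by exact_mod_cast hs
  have h4 : (s : ℝ) ^ 2 ≤ (D : ℝ) * (Real.log n) ^ (2 * c) := by
    have h5 := pow_le_pow_left₀ hs0.le hsD 2
    refine h5.trans (le_of_eq ?_)
    have h6 : (Real.sqrt (D : ℝ)) ^ 2 = (D : ℝ) := Real.sq_sqrt (Nat.cast_nonneg D)
    calc (Real.sqrt (D : ℝ) * (Real.log n) ^ c) ^ 2
        = (Real.sqrt (D : ℝ)) ^ 2 * ((Real.log n) ^ c) ^ 2 := by ring
      _ = (D : ℝ) * (Real.log n) ^ (2 * c) := by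
          rw [h6, ← pow_mul, mul_comm c 2]
  have h7 : (s : ℝ) ^ 2 ≤ (s : ℝ) * ((w : ℝ) * (Real.log n) ^ (2 * c + 4)) := by
    calc (s : ℝ) ^ 2 ≤ (D : ℝ) * (Real.log n) ^ (2 * c) := h4
      _ ≤ ((K : ℝ) * (s : ℝ) * (w : ℝ) * (Real.log ((n : ℝ) + 2)) ^ 3) *
          (Real.log n) ^ (2 * c) := mul_le_mul_of_nonneg_right hmain (by positivity)
      _ = (s : ℝ) * (w : ℝ) * (Real.log n) ^ (2 * c) *
          ((K : ℝ) * (Real.log ((n : ℝ) + 2)) ^ 3) := by ring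
      _ ≤ (s : ℝ) * (w : ℝ) * (Real.log n) ^ (2 * c) * (Real.log n) ^ 4 :=
          mul_le_mul_of_nonneg_left (log_bound hn hn2) (by positivity)
      _ = (s : ℝ) * ((w : ℝ) * (Real.log n) ^ (2 * c + 4)) := by ring
  have h8 : (s : ℝ) ^ 2 = (s : ℝ) * (s : ℝ) := by ring
  rw [h8] at h7
  exact le_of_mul_le_mul_left h7 (by positivity)

theorem exists_large (K : ℕ) : ∃ n0 : ℕ, ∀ n ≥ n0, 16 * (K : ℝ) ≤ Real.log n ∧ 2 ≤ n := by
  refine ⟨⌈Real.exp (16 * (K : ℝ))⌉₊ + 2, ?_⟩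
  intro n hn
  refine ⟨?_, by omega⟩
  have h1 : Real.exp (16 * (K : ℝ)) ≤ (n : ℝ) := by
    refine (Nat.le_ceil _).trans ?_
    exact_mod_cast (by omega : ⌈Real.exp (16 * (K : ℝ))⌉₊ ≤ n)
  have h2 : (0 : ℝ) < (n : ℝ) := lt_of_lt_of_le (Real.exp_pos _) h1
  exact (Real.le_log_iff_exp_le h2).mpr h1

theorem card_le_size {n : ℕ} {A : Finset (Finset (Fin n × Bool))} {C : Finset (Fin n × Bool)}
    (hC : C ∈ A) : C.card ≤ ∑ C' ∈ A, C'.card :=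
  Finset.single_le_sum (f := fun C : Finset (Fin n × Bool) => C.card) (fun _ _ => Nat.zero_le _) hC

theorem arith {K s L l D : ℝ} {k : ℕ} (hK : 0 ≤ K) (hs0 : 0 ≤ s) (hL : 1 ≤ L) (hs : s ≤ L ^ k)
    (hl0 : 0 ≤ l) (hl : l ≤ 2 * L) (hb : D ≤ K * s * (s + 1) * l ^ 3) :
    D ≤ 16 * K * L ^ (2 * k + 3) := by
  have h0 : 0 ≤ L := by linarith
  have h1 : 1 ≤ L ^ k := one_le_pow₀ hL
  have h2 : s + 1 ≤ 2 * L ^ k := by linarith
  have h3 : K * s ≤ K * L ^ k := mul_le_mul_of_nonneg_left hs hK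
  have h4 : K * s * (s + 1) ≤ K * L ^ k * (2 * L ^ k) :=
    mul_le_mul h3 h2 (by linarith) (by positivity)
  have h5 : l ^ 3 ≤ (2 * L) ^ 3 := pow_le_pow_left₀ hl0 hl 3
  have h6 : K * s * (s + 1) * l ^ 3 ≤ K * L ^ k * (2 * L ^ k) * (2 * L) ^ 3 :=
    mul_le_mul h4 h5 (by positivity) (by positivity)
  have h7 : K * L ^ k * (2 * L ^ k) * (2 * L) ^ 3 = 16 * K * L ^ (2 * k + 3) := by ring
  linarith

theorem sCorC : SCorC := by
  intro hmain F D hD hlarge c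
  obtain ⟨K, hK⟩ := hmain
  obtain ⟨n0, hn0⟩ := exists_large K
  have hD1 := (hlarge (4 * c + 11)).eventually_gt_atTop (16 * (K : ℝ) + 1)
  have hlogev : ∀ᶠ n : ℕ in atTop, 1 ≤ Real.log (n : ℝ) :=
    (Real.tendsto_log_atTop.comp tendsto_natCast_atTop_atTop).eventually_ge_atTop 1
  filter_upwards [hD1, eventually_ge_atTop n0, hlogev] with n hDn hn hlog1
  obtain ⟨hn1, hn2⟩ := hn0 n hn
  intro τ M hM hsp
  have hK0 : (0 : ℝ) ≤ (K : ℝ) := Nat.cast_nonneg K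
  have hlogpos : 0 < Real.log (n : ℝ) := by linarith
  have hL : 0 < Real.log (n : ℝ) ^ (2 * c + 4) := by positivity
  have hL1 : 1 ≤ Real.log (n : ℝ) ^ (2 * c + 4) := one_le_pow₀ hlog1
  -- the maximal total size
  obtain ⟨u0, hu0, hmax⟩ := Finset.exists_max_image (Finset.range (τ + 1))
    (fun u => ∑ C ∈ M u, C.card) ⟨0, by simp⟩
  rw [Finset.mem_range] at hu0
  set s := ∑ C ∈ M u0, C.card with hsdef
  have hs : ∀ t ≤ τ, ∑ C ∈ M t, C.card ≤ s := fun t ht =>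
    hmax t (Finset.mem_range.mpr (by omega))
  have hspu := hsp u0 (by omega)
  rw [← hsdef] at hspu
  -- the total size is large
  have hbig : Real.log (n : ℝ) ^ (2 * c + 4) < (s : ℝ) := by
    by_contra hcon
    push Not at hcon
    have hb := hK n (F n) (D n) s (s + 1) τ M (hD n) hM (by omega) hs (by
      intro t ht
      refine Or.inl ?_
      intro C hC C' _ h1 _
      have := card_le_size hC
      have := hs t ht.le
      omega)
    have h9 := log_two_mul hn2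
    have h2n : (2 : ℝ) ≤ (n : ℝ) := by exact_mod_cast hn2
    have hL0 : 0 ≤ Real.log ((n : ℝ) + 2) := Real.log_nonneg (by linarith)
    rw [Nat.cast_add, Nat.cast_one] at hb
    have h11 := arith hK0 (Nat.cast_nonneg s) hlog1 hcon hL0 h9 hb
    have h13 : 2 * (2 * c + 4) + 3 = 4 * c + 11 := by ring
    rw [h13] at h11
    have h12 : 0 < Real.log (n : ℝ) ^ (4 * c + 11) := pow_pos hlogpos _
    rw [lt_div_iff₀ h12, add_mul, one_mul] at hDn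
    linarith
  have hs0 : 0 < s := by
    have : (0 : ℝ) < (s : ℝ) := hL.trans hbig
    exact_mod_cast this
  -- the width
  have hx1 : (1 : ℝ) < (s : ℝ) / Real.log (n : ℝ) ^ (2 * c + 4) := by
    rw [one_lt_div hL]; exact hbig
  obtain ⟨w, hw⟩ : ∃ w : ℕ, ⌈(s : ℝ) / Real.log (n : ℝ) ^ (2 * c + 4)⌉₊ = w + 1 := by
    have : 0 < ⌈(s : ℝ) / Real.log (n : ℝ) ^ (2 * c + 4)⌉₊ := Nat.ceil_pos.2 (by linarith)
    exact ⟨_ - 1, (Nat.sub_add_cancel this).symm⟩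
  have hw1 : 1 ≤ w := by
    have : 1 < ⌈(s : ℝ) / Real.log (n : ℝ) ^ (2 * c + 4)⌉₊ := Nat.lt_ceil.2 (by simpa using hx1)
    omega
  have hwlt : (w : ℝ) < (s : ℝ) / Real.log (n : ℝ) ^ (2 * c + 4) :=
    Nat.lt_ceil.1 (by omega)
  have hwle : (s : ℝ) / Real.log (n : ℝ) ^ (2 * c + 4) ≤ ((w + 1 : ℕ) : ℝ) := by
    rw [← hw]; exact Nat.le_ceil _
  have hex : ∃ t < τ, ¬ One w (M t) := by
    by_contra hcon
    push Not at hcon
    have hb := hK n (F n) (D n) s w τ M (hD n) hM hw1 hs (fun t ht => Or.inl (hcon t ht))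
    have h1 := step hs0 hb hn1 hn2 hspu
    rw [lt_div_iff₀ hL] at hwlt
    linarith
  obtain ⟨t, ht, hone⟩ := hex
  unfold Pool.Agent.T9h7.RE.One at hone
  push Not at hone
  obtain ⟨C, hC, C', hC', h1, h2, hne⟩ := hone
  have hfin : ∀ k : ℕ, w < k → ∀ u ≤ τ,
      ((∑ C'' ∈ M u, C''.card : ℕ) : ℝ) ≤ (k : ℝ) * (Real.log n) ^ (2 * c + 4) := by
    intro k hk u hu
    have h3 : ((∑ C'' ∈ M u, C''.card : ℕ) : ℝ) ≤ (s : ℝ) := by exact_mod_cast hs u hu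
    have h4 : ((w + 1 : ℕ) : ℝ) ≤ (k : ℝ) := by exact_mod_cast hk
    rw [div_le_iff₀ hL] at hwle
    exact h3.trans (hwle.trans (mul_le_mul_of_nonneg_right h4 hL.le))
  exact ⟨t, ht, C, hC, C', hC', hne, fun u hu => ⟨hfin _ h1 u hu, hfin _ h2 u hu⟩⟩

end Pool.Agent.T9h12.RE
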